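import Mathlib

set_option autoImplicit false

namespace Pool.Agent.H.MP_ca0bb9_al

open scoped commutatorElement

section Abs

variable {G : Type*} [Group G] {p : ℕ}

/-- subgroups of a cyclic `p`-group form a chain -/
theorem chain (hp : p.Prime) {x : G} {k : ℕ} (hx : x ^ p ^ k = 1) {a b : G}
    (ha : a ∈ Subgroup.zpowers x) (hb : b ∈ Subgroup.zpowers x) :
    a ∈ Subgroup.zpowers b ∨ b ∈ Subgroup.zpowers a := by
  have key : ∀ a ∈ Subgroup.zpowers x, ∃ i : ℕ,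
      Subgroup.zpowers a = Subgroup.zpowers (x ^ p ^ i) := by
    intro a ha
    have hf : IsOfFinOrder x := isOfFinOrder_iff_pow_eq_one.2 ⟨_, pow_pos hp.pos k, hx⟩
    obtain ⟨n, rfl⟩ := (Submonoid.mem_powers_iff _ _).1 (hf.mem_powers_iff_mem_zpowers.2 ha)
    obtain ⟨i, -, hi⟩ := (Nat.dvd_prime_pow hp).1 (Nat.gcd_dvd_right n (p ^ k))
    refine ⟨i, le_antisymm ?_ ?_⟩
    · rw [Subgroup.zpowers_le, ← hi]
      obtain ⟨c, hc⟩ := Nat.gcd_dvd_left n (p ^ k)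
      refine ⟨c, ?_⟩
      simp only [zpow_natCast]
      rw [← pow_mul, ← hc]
    · rw [Subgroup.zpowers_le, ← hi]
      refine ⟨Nat.gcdA n (p ^ k), ?_⟩
      have := Nat.gcd_eq_gcd_ab n (p ^ k)
      simp only
      rw [← zpow_natCast, ← zpow_natCast, ← zpow_mul, this, zpow_add, zpow_mul x (p ^ k : ℕ),
        zpow_natCast x (p ^ k), hx, one_zpow, mul_one]
  obtain ⟨i, hi⟩ := key a ha
  obtain ⟨j, hj⟩ := key b hb
  have mono : ∀ i j, i ≤ j → Subgroup.zpowers (x ^ p ^ j) ≤ Subgroup.zpowers (x ^ p ^ i) := by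
    intro i j h
    obtain ⟨c, rfl⟩ := Nat.exists_eq_add_of_le h
    rw [Subgroup.zpowers_le, pow_add, pow_mul]
    exact Subgroup.pow_mem _ (Subgroup.mem_zpowers _) _
  rcases le_total i j with h | h
  · right
    rw [hi]
    exact mono i j h (hj ▸ Subgroup.mem_zpowers b)
  · left
    rw [hj]
    exact mono j i h (hi ▸ Subgroup.mem_zpowers a)

theorem comm_mul_right (hc : ∀ a b g : G, Commute ⁅a, b⁆ g) (x g h : G) :
    ⁅x, g * h⁆ = ⁅x, g⁆ * ⁅x, h⁆ := by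
  have h1 : ⁅x, g * h⁆ = ⁅x, g⁆ * (g * ⁅x, h⁆ * g⁻¹) := by
    simp only [commutatorElement_def]
    group
  rw [h1, ← (hc x h g).eq, mul_inv_cancel_right]

/-- commutator map in a group of class two -/
def cm (hc : ∀ a b g : G, Commute ⁅a, b⁆ g) (x : G) : G →* G :=
  MonoidHom.mk' (fun g => ⁅x, g⁆) (comm_mul_right hc x)

theorem two_sub (A B : Subgroup G) (a b : G) (ha : a ∉ A) (hb : b ∉ B) :
    ∃ w, w ∉ A ∧ w ∉ B := by
  by_cases h1 : a ∈ B
  · by_cases h2 : b ∈ A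
    · exact ⟨a * b, fun h => ha ((A.mul_mem_cancel_right h2).1 h),
        fun h => hb ((B.mul_mem_cancel_left h1).1 h)⟩
    · exact ⟨b, h2, hb⟩
  · exact ⟨a, ha, h1⟩

theorem comparable (hp : p.Prime) (S : Subgroup G) (hc : ∀ a b g : G, Commute ⁅a, b⁆ g)
    (hT : ∀ x ∉ S, ∀ g, ⁅x, g⁆ ≠ 1 → (∃ k, x ^ p ^ k = 1) ∧ ⁅x, g⁆ ∈ Subgroup.zpowers x)
    {x y x' y' : G} (hx : x ∉ S) (hx' : x' ∉ S) :
    ⁅x, y⁆ ∈ Subgroup.zpowers ⁅x', y'⁆ ∨ ⁅x', y'⁆ ∈ Subgroup.zpowers ⁅x, y⁆ := by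
  by_contra hn
  push Not at hn
  obtain ⟨n1, n2⟩ := hn
  have c1 : ⁅x, y⁆ ≠ 1 := fun h => n1 (h ▸ Subgroup.one_mem _)
  have c2 : ⁅x', y'⁆ ≠ 1 := fun h => n2 (h ▸ Subgroup.one_mem _)
  obtain ⟨⟨k, hk⟩, m1⟩ := hT x hx y c1
  obtain ⟨⟨k', hk'⟩, m2⟩ := hT x' hx' y' c2
  let D := Subgroup.zpowers ⁅x, y⁆ ⊓ Subgroup.zpowers ⁅x', y'⁆
  have key : ∀ d, d ∈ Subgroup.zpowers x → d ∈ Subgroup.zpowers x' → d ∈ D := by
    intro d h1 h2
    rcases chain hp hk h1 m1 with a1 | a1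
    · rcases chain hp hk' h2 m2 with a2 | a2
      · exact ⟨a1, a2⟩
      · have := Subgroup.zpowers_le.2 h1 a2
        rcases chain hp hk m1 this with h | h
        · exact absurd h n1
        · exact absurd h n2
    · have := Subgroup.zpowers_le.2 h2 a1
      rcases chain hp hk' this m2 with h | h
      · exact absurd h n1
      · exact absurd h n2
  have both : ∀ u ∉ S, ∀ w ∉ S, ⁅u, w⁆ ≠ 1 →
      ⁅u, w⁆ ∈ Subgroup.zpowers u ∧ ⁅u, w⁆ ∈ Subgroup.zpowers w ∧ ∃ k, w ^ p ^ k = 1 := by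
    intro u hu w hw h
    have h' : ⁅w, u⁆ ≠ 1 := fun e => h (by rw [← commutatorElement_inv, e, inv_one])
    refine ⟨(hT u hu w h).2, ?_, (hT w hw u h').1⟩
    rw [← commutatorElement_inv]
    exact Subgroup.inv_mem _ (hT w hw u h').2
  have hxx : ⁅x, x'⁆ ∈ D := by
    by_cases h : ⁅x, x'⁆ = 1
    · exact h ▸ D.one_mem
    · exact key _ (both x hx x' hx' h).1 (both x hx x' hx' h).2.1
  obtain ⟨w0, w1, w2⟩ := two_sub (D.comap (cm hc x)) (D.comap (cm hc x')) y y'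
    (fun h => n1 h.2) (fun h => n2 h.1)
  obtain ⟨w, ws, w1, w2⟩ : ∃ w, w ∉ S ∧ w ∉ D.comap (cm hc x) ∧ w ∉ D.comap (cm hc x') := by
    by_cases h : w0 ∈ S
    · have a1 : x ∈ D.comap (cm hc x) := by
        change ⁅x, x⁆ ∈ D
        rw [commutatorElement_self]
        exact D.one_mem
      have a2 : x ∈ D.comap (cm hc x') := by
        change ⁅x', x⁆ ∈ D
        rw [← commutatorElement_inv]
        exact D.inv_mem hxx
      exact ⟨w0 * x, fun e => hx ((S.mul_mem_cancel_left h).1 e),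
        fun e => w1 ((Subgroup.mul_mem_cancel_right _ a1).1 e),
        fun e => w2 ((Subgroup.mul_mem_cancel_right _ a2).1 e)⟩
    · exact ⟨w0, h, w1, w2⟩
  change ⁅x, w⁆ ∉ D at w1
  change ⁅x', w⁆ ∉ D at w2
  obtain ⟨b1, b2, j, hj⟩ := both x hx w ws fun h => w1 (h ▸ D.one_mem)
  obtain ⟨b3, b4, -⟩ := both x' hx' w ws fun h => w2 (h ▸ D.one_mem)
  rcases chain hp hj b2 b4 with h | h
  · exact w1 (key _ b1 (Subgroup.zpowers_le.2 b3 h))
  · exact w2 (key _ (Subgroup.zpowers_le.2 b1 h) b3)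

theorem gen_compl (S : Subgroup G) (hS : S ≠ ⊤) (H : Subgroup G) (h : ∀ x ∉ S, x ∈ H) (g : G) :
    g ∈ H := by
  by_cases hg : g ∈ S
  · obtain ⟨t, ht⟩ : ∃ t, t ∉ S := by
      by_contra hc
      push Not at hc
      exact hS (eq_top_iff.2 fun x _ => hc x)
    have : g * t ∉ S := fun e => ht ((S.mul_mem_cancel_left hg).1 e)
    exact (H.mul_mem_cancel_right (h t ht)).1 (h _ this)
  · exact h g hg

end Abs

section Top

variable {G : Type*} [Group G] [TopologicalSpace G] [IsTopologicalGroup G] [CompactSpace G]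
  [T2Space G] [TotallyDisconnectedSpace G] {p : ℕ}

theorem sep {g : G} (hg : g ≠ 1) : ∃ N : OpenNormalSubgroup G, g ∉ N := by
  obtain ⟨N, hN⟩ := ProfiniteGrp.exist_openNormalSubgroup_sub_open_nhds_of_one
    (G := G) (U := {g}ᶜ) isOpen_compl_singleton (by simpa using hg.symm)
  exact ⟨N, fun h => hN h rfl⟩

omit [CompactSpace G] [T2Space G] [TotallyDisconnectedSpace G] in
theorem approx {x y : G} (hy : y ∈ (Subgroup.zpowers x).topologicalClosure)
    (N : OpenNormalSubgroup G) : ∃ i : ℤ,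
      QuotientGroup.mk' (N : Subgroup G) y = QuotientGroup.mk' (N : Subgroup G) x ^ i := by
  let H : Subgroup G := (Subgroup.zpowers (QuotientGroup.mk' (N : Subgroup G) x)).comap
    (QuotientGroup.mk' (N : Subgroup G))
  have h1 : (N : Subgroup G) ≤ H := by
    intro g hg
    rw [Subgroup.mem_comap, QuotientGroup.mk'_apply _ g, (QuotientGroup.eq_one_iff g).2 hg]
    exact Subgroup.one_mem _
  have h2 : IsClosed (H : Set G) :=
    Subgroup.isClosed_of_isOpen H (Subgroup.isOpen_mono h1 N.toOpenSubgroup.isOpen)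
  have h3 : Subgroup.zpowers x ≤ H := Subgroup.zpowers_le.2 (Subgroup.mem_zpowers _)
  obtain ⟨i, hi⟩ := Subgroup.topologicalClosure_minimal _ h3 h2 hy
  exact ⟨i, hi.symm⟩

theorem class_two (S : Subgroup G) (hS : S ≠ ⊤)
    (hN : ∀ x ∉ S, (Subgroup.zpowers x).topologicalClosure.Normal) (a b g : G) :
    Commute ⁅a, b⁆ g := by
  have := gen_compl S hS (Subgroup.centralizer {⁅a, b⁆}) (fun x hx => ?_) g
  · exact Subgroup.mem_centralizer_singleton_iff.1 this |>.symm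
  rw [Subgroup.mem_centralizer_singleton_iff]
  by_contra hc
  have h1 : ⁅a, b⁆ * x * ⁅a, b⁆⁻¹ * x⁻¹ ≠ 1 := fun h => hc (by
    rw [mul_inv_eq_one, mul_inv_eq_iff_eq_mul] at h
    exact h.symm)
  obtain ⟨N, hN'⟩ := sep h1
  apply hN'
  change _ ∈ (N : Subgroup G)
  rw [← QuotientGroup.eq_one_iff, ← QuotientGroup.mk'_apply]
  have hx0 := Subgroup.le_topologicalClosure _ (Subgroup.mem_zpowers x)
  obtain ⟨i, hi⟩ := approx ((hN x hx).conj_mem x hx0 a) N
  obtain ⟨j, hj⟩ := approx ((hN x hx).conj_mem x hx0 b) N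
  obtain ⟨l, hl⟩ := approx ((hN x hx).conj_mem x hx0 (b * a)⁻¹) N
  simp only [commutatorElement_def, map_mul, map_inv] at hi hj hl ⊢
  generalize QuotientGroup.mk' (N : Subgroup G) x = X at *
  generalize QuotientGroup.mk' (N : Subgroup G) a = A at *
  generalize QuotientGroup.mk' (N : Subgroup G) b = B at *
  have e1 : A * B * X * (A * B)⁻¹ = B * A * X * (B * A)⁻¹ := by
    calc A * B * X * (A * B)⁻¹ = A * (B * X * B⁻¹) * A⁻¹ := by group
      _ = (A * X * A⁻¹) ^ j := by rw [hj, conj_zpow]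
      _ = (B * X * B⁻¹) ^ i := by rw [hi, hj, ← zpow_mul, ← zpow_mul, mul_comm]
      _ = B * (A * X * A⁻¹) * B⁻¹ := by rw [hi, conj_zpow]
      _ = _ := by group
  calc A * B * A⁻¹ * B⁻¹ * X * (A * B * A⁻¹ * B⁻¹)⁻¹ * X⁻¹
      = A * B * ((B * A)⁻¹ * X * (B * A)⁻¹⁻¹) * (A * B)⁻¹ * X⁻¹ := by group
    _ = (A * B * X * (A * B)⁻¹) ^ l * X⁻¹ := by rw [hl, conj_zpow]
    _ = B * A * ((B * A)⁻¹ * X * (B * A)⁻¹⁻¹) * (B * A)⁻¹ * X⁻¹ := by rw [e1, hl, conj_zpow]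
    _ = 1 := by group

omit [CompactSpace G] [TotallyDisconnectedSpace G] in
theorem closure_fin {x : G} (hx : IsOfFinOrder x) :
    (Subgroup.zpowers x).topologicalClosure = Subgroup.zpowers x :=
  le_antisymm (Subgroup.topologicalClosure_minimal _ le_rfl
    (finite_zpowers.2 hx).isClosed) (Subgroup.le_topologicalClosure _)

theorem torsion (hp : p.Prime) (hP : ∀ N : OpenNormalSubgroup G, IsPGroup p (G ⧸ (N : Subgroup G)))
    (S : Subgroup G) (hS : S ≠ ⊤)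
    (hN : ∀ x ∉ S, (Subgroup.zpowers x).topologicalClosure.Normal) (x : G) (hx : x ∉ S) (g : G)
    (h : ⁅x, g⁆ ≠ 1) : (∃ k, x ^ p ^ k = 1) ∧ ⁅x, g⁆ ∈ Subgroup.zpowers x := by
  have hc := class_two S hS hN
  have hx0 := Subgroup.le_topologicalClosure _ (Subgroup.mem_zpowers x)
  have hm : ⁅x, g⁆ ∈ (Subgroup.zpowers x).topologicalClosure := by
    have : ⁅x, g⁆ = x * (g * x⁻¹ * g⁻¹) := by
      rw [commutatorElement_def]
      group
    rw [this]
    exact Subgroup.mul_mem _ hx0 ((hN x hx).conj_mem _ (Subgroup.inv_mem _ hx0) g)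
  obtain ⟨N0, h0⟩ := sep h
  obtain ⟨k, hk⟩ := hP N0 (QuotientGroup.mk' (N0 : Subgroup G) x)
  rw [← map_pow, QuotientGroup.mk'_apply, QuotientGroup.eq_one_iff] at hk
  have key : x ^ p ^ (k + k) = 1 := by
    by_contra hne
    obtain ⟨N1, h1⟩ := sep hne
    let N := N0 ⊓ N1
    let q := QuotientGroup.mk' (N : Subgroup G)
    obtain ⟨i, hi⟩ := approx hm N
    obtain ⟨m, hm'⟩ := hP N (q x)
    rcases chain hp hm' (a := q ⁅x, g⁆) (b := q x ^ p ^ k) ⟨i, hi.symm⟩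
      (Subgroup.pow_mem _ (Subgroup.mem_zpowers _) _) with ⟨j, hj⟩ | ⟨j, hj⟩
    · have hj' : q ((x ^ p ^ k) ^ j) = q ⁅x, g⁆ := by
        rw [map_zpow, map_pow]
        exact hj
      have h2 : ((x ^ p ^ k) ^ j)⁻¹ * ⁅x, g⁆ ∈ (N0 : Subgroup G) := (QuotientGroup.eq.1 hj').1
      exact h0 ((Subgroup.mul_mem_cancel_left _
        (Subgroup.inv_mem _ (Subgroup.zpow_mem _ hk j))).1 h2)
    · simp only at hj
      have h2 : q ⁅g, x ^ p ^ k⁆ = 1 := by
        rw [map_commutatorElement, map_pow, ← hj, ← map_zpow, ← map_commutatorElement,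
          commutatorElement_eq_one_iff_commute.2 ((hc x g g).symm.zpow_right j), map_one]
      have h3 : ⁅g, x ^ p ^ k⁆ = ⁅g, x⁆ ^ p ^ k := map_pow (cm hc g) x _
      rw [h3, ← commutatorElement_inv, inv_pow, map_inv, inv_eq_one, map_pow] at h2
      have h4 : q (x ^ p ^ (k + k)) = 1 := by
        rw [map_pow, pow_add, pow_mul, ← hj, ← zpow_natCast, ← zpow_mul, mul_comm, zpow_mul,
          zpow_natCast, h2, one_zpow]
      exact h1 ((QuotientGroup.eq_one_iff _).1 h4).2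
  refine ⟨⟨_, key⟩, ?_⟩
  rwa [closure_fin (isOfFinOrder_iff_pow_eq_one.2 ⟨_, pow_pos hp.pos _, key⟩)] at hm

theorem main (hp : p.Prime) (hP : ∀ N : OpenNormalSubgroup G, IsPGroup p (G ⧸ (N : Subgroup G)))
    (S : Subgroup G) (hS : S ≠ ⊤)
    (hN : ∀ x ∉ S, (Subgroup.zpowers x).topologicalClosure.Normal) :
    ∃ n : ℕ, Nonempty ((commutator G).topologicalClosure ≃* Multiplicative (ZMod (p ^ n))) := by
  haveI := Fact.mk hp
  have hc := class_two S hS hN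
  have hT := torsion hp hP S hS hN
  have hord : ∀ x ∉ S, ∀ g : G, ∃ k : ℕ, (⁅x, g⁆ : G) ^ p ^ k = 1 := by
    intro x hx g
    by_cases h : ⁅x, g⁆ = 1
    · exact ⟨0, by simp [h]⟩
    · obtain ⟨⟨k, hk⟩, j, hj⟩ := hT x hx g h
      refine ⟨k, ?_⟩
      simp only at hj
      rw [← hj, ← zpow_natCast, ← zpow_mul, mul_comm, zpow_mul, zpow_natCast, hk, one_zpow]
  have hfin : ∀ x ∉ S, ∀ g : G, IsOfFinOrder (⁅x, g⁆ : G) := fun x hx g => by
    obtain ⟨k, hk⟩ := hord x hx g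
    exact isOfFinOrder_iff_pow_eq_one.2 ⟨_, pow_pos hp.pos _, hk⟩
  let T : Set ℕ := {n | ∃ x ∉ S, ∃ g : G, orderOf (⁅x, g⁆ : G) = n}
  obtain ⟨t, ht⟩ : ∃ t, t ∉ S := by
    by_contra hc
    push Not at hc
    exact hS (eq_top_iff.2 fun x _ => hc x)
  have hb : BddAbove T := by
    by_cases h : ∃ x ∉ S, ∃ g : G, (⁅x, g⁆ : G) ≠ 1
    · obtain ⟨x0, hx0, g0, h0⟩ := h
      obtain ⟨N0, hN0⟩ := sep h0
      haveI : Finite (G ⧸ (N0 : Subgroup G)) :=
        Subgroup.quotient_finite_of_isOpen _ N0.toOpenSubgroup.isOpen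
      obtain ⟨k, hk⟩ := IsPGroup.iff_card.1 (hP N0)
      refine ⟨p ^ k * orderOf ⁅x0, g0⁆, ?_⟩
      rintro _ ⟨x, hx, g, rfl⟩
      refine Nat.le_of_dvd (Nat.mul_pos (pow_pos hp.pos _) (hfin x0 hx0 g0).orderOf_pos)
        (orderOf_dvd_of_pow_eq_one ?_)
      have h1 : ⁅x, g⁆ ^ p ^ k ∈ Subgroup.zpowers ⁅x0, g0⁆ := by
        rcases comparable hp S hc hT (y := g) (y' := g0) hx hx0 with h | h
        · exact Subgroup.pow_mem _ h _
        · obtain ⟨m, hm⟩ := hord x hx g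
          rcases chain hp hm h (Subgroup.pow_mem _ (Subgroup.mem_zpowers _) (p ^ k)) with h2 | h2
          · have h3 : ⁅x, g⁆ ^ p ^ k ∈ (N0 : Subgroup G) := by
              rw [← QuotientGroup.eq_one_iff, ← hk, QuotientGroup.mk_pow]
              exact pow_card_eq_one'
            exact absurd (Subgroup.zpowers_le.2 h3 h2) hN0
          · exact h2
      obtain ⟨j, hj⟩ := h1
      simp only at hj
      rw [pow_mul, ← hj, ← zpow_natCast, ← zpow_mul, mul_comm, zpow_mul, zpow_natCast,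
        pow_orderOf_eq_one, one_zpow]
    · push Not at h
      refine ⟨1, ?_⟩
      rintro _ ⟨x, hx, g, rfl⟩
      simp [h x hx g]
  obtain ⟨x0, hx0, g0, h0⟩ := Nat.sSup_mem (s := T) ⟨_, t, ht, 1, rfl⟩ hb
  have hall : ∀ x ∉ S, ∀ g, ⁅x, g⁆ ∈ Subgroup.zpowers ⁅x0, g0⁆ := by
    intro x hx g
    rcases comparable hp S hc hT (y := g) (y' := g0) hx hx0 with h | h
    · exact h
    · haveI : Finite (Subgroup.zpowers ⁅x, g⁆) := (finite_zpowers.2 (hfin x hx g)).to_subtype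
      rw [Subgroup.eq_of_le_of_card_ge (Subgroup.zpowers_le.2 h) (by
        rw [Nat.card_zpowers, Nat.card_zpowers, h0]
        exact le_csSup hb ⟨x, hx, g, rfl⟩)]
      exact Subgroup.mem_zpowers _
  have hcomm : commutator G = Subgroup.zpowers ⁅x0, g0⁆ := by
    refine le_antisymm ?_ (Subgroup.zpowers_le.2
      (Subgroup.commutator_mem_commutator (Subgroup.mem_top _) (Subgroup.mem_top _)))
    rw [commutator_def, Subgroup.commutator_le]
    intro a _ b _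
    refine gen_compl S hS ((Subgroup.zpowers ⁅x0, g0⁆).comap (cm hc a)) (fun x hx => ?_) b
    change ⁅a, x⁆ ∈ Subgroup.zpowers ⁅x0, g0⁆
    rw [← commutatorElement_inv x a]
    exact Subgroup.inv_mem _ (hall x hx a)
  obtain ⟨m, hm⟩ := hord x0 hx0 g0
  obtain ⟨n, -, hn⟩ := (Nat.dvd_prime_pow hp).1 (orderOf_dvd_of_pow_eq_one hm)
  refine ⟨n, ?_⟩
  rw [hcomm, closure_fin (hfin x0 hx0 g0), ← hn, ← Nat.card_zpowers]
  exact ⟨(zmodCyclicMulEquiv inferInstance).symm⟩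

end Top

end Pool.Agent.H.MP_ca0bb9_al
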